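import Pool.Agent.Helper81.LT.Mod

/-!
MP_c20641_lc, Part II: the substructure lattice of the definable ultrapower.
-/

namespace Pool.Agent.Helper32.LT

open FirstOrder Language Pool.Agent.Helper81.LT

attribute [local instance] stdStr

theorem latt (hT : TVT) (hC : CHOI) (hE : ESB) (hO : ORDK) (hS : SURK) : LATT := by
  intro Λ _ _ _ _ M _ _ _ _ hdef t D hU hG
  -- the ultrafilter
  let F : Filter M := ⨅ n, Filter.principal {u | D n u}
  have hanti : Antitone fun n => {u | D n u} := antitone_nat_of_succ_le fun n u hu => hG.anti n u hu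
  have hne : F.NeBot := by
    apply Filter.iInf_neBot_of_directed'
    · refine directed_of_isDirected_le fun i j hij => ?_
      exact Filter.principal_mono.mpr (hanti hij)
    · intro n
      rw [Filter.principal_neBot_iff]
      obtain ⟨f, hf, _⟩ := hG.rich n 1
      exact ⟨f 0, hf 0 one_pos⟩
  let U : Ultrafilter M := Ultrafilter.of F
  have hUD : ∀ n, ∀ᶠ u in (U : Filter M), D n u := fun n =>
    Ultrafilter.of_le F (Filter.mem_iInf_of_mem n (Filter.mem_principal_self _))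
  -- the structures
  obtain ⟨N, hN⟩ := hT M U {f | DefF f} (hC Λ M t D hG.anti {f | DefF f} (Or.inl rfl))
  have hK : ∀ s : Λ, ∃ K : LA.ElementarySubstructure (UP U),
      ∀ z, z ∈ K ↔ ∃ f ∈ {f : M → M | DefF f ∧ ∃ n, ∀ u v, D n u → D n v → s ≤ t u v →
        f u = f v}, z = cls U f :=
    fun s => hT M U _ (hC Λ M t D hG.anti _ (Or.inr ⟨s, rfl⟩))
  choose K hK using hK
  have hKN : ∀ s, K s ≤ N := by
    intro s z hz
    obtain ⟨f, hf, rfl⟩ := (hK s z).mp hz
    exact (hN _).mpr ⟨f, hf.1, rfl⟩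
  have hord : ∀ s s', K s ≤ K s' ↔ s ≤ s' := by
    intro s s'
    constructor
    · intro h
      refine hO Λ M t D hU hG U hUD s s' fun f hf hc => ?_
      obtain ⟨g, hg, he⟩ := (hK s' _).mp (h ((hK s _).mpr ⟨f, ⟨hf, hc⟩, rfl⟩))
      exact ⟨g, hg.1, hg.2, he⟩
    · intro h z hz
      obtain ⟨f, hf, rfl⟩ := (hK s z).mp hz
      obtain ⟨n, hn⟩ := hf.2
      exact (hK s' _).mpr ⟨f, ⟨hf.1, n, fun u v hu hv huv => hn u v hu hv (h.trans huv)⟩, rfl⟩
  have hsurj : ∀ K' : LA.ElementarySubstructure (UP U), K' ≤ N → ∃ s, K s = K' := by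
    intro K' hK'
    obtain ⟨s, hs⟩ := hS Λ M hdef t D hU hG U hUD K' (fun z hz => by
      obtain ⟨f, hf, h⟩ := (hN z).mp (hK' hz)
      exact ⟨f, hf, h⟩)
    refine ⟨s, ?_⟩
    apply SetLike.ext
    intro z
    rw [hs, hK s]
    constructor
    · rintro ⟨f, hf, h⟩
      exact ⟨f, hf.1, hf.2, h⟩
    · rintro ⟨f, hf, hc, h⟩
      exact ⟨f, ⟨hf, hc⟩, h⟩
  obtain ⟨e⟩ := hE LA (UP U) N
  let g : Λ ↪o {K : LA.ElementarySubstructure (UP U) // K ≤ N} :=
    OrderEmbedding.ofMapLEIff (fun s => ⟨K s, hKN s⟩) (fun s s' => hord s s')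
  have hg : Function.Surjective g := by
    rintro ⟨K', hK'⟩
    obtain ⟨s, hs⟩ := hsurj K' hK'
    exact ⟨s, Subtype.ext hs⟩
  exact ⟨U, N, ⟨(RelIso.ofSurjective g hg).trans e⟩⟩

end Pool.Agent.Helper32.LT
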